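import Pool.Agent.Lib.MP_1b8ce0_al.T.Main

namespace Pool.Agent.Results.MP_1b8ce0_al.TwistIso

open Pool.Agent.Lib.MP_1b8ce0_al

theorem result :
    (∀ (S S' : Type) [Finite S] [Finite S'] (M : CoxeterMatrix S) (M' : CoxeterMatrix S'),
      TwoDim M → TwoDim M' →
        (Nonempty (ArtinGroup M ≃* ArtinGroup M') ↔ TwistEquiv M M')) ∧
    ∃ f : List (List ℕ) × List (List ℕ) → Bool, Computable f ∧
      ∀ (n n' : ℕ) (M : CoxeterMatrix (Fin n)) (M' : CoxeterMatrix (Fin n')),
        TwoDim M → TwoDim M' →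
          (f (table M, table M') = true ↔ Nonempty (ArtinGroup M ≃* ArtinGroup M')) :=
  T.main_thm

end Pool.Agent.Results.MP_1b8ce0_al.TwistIso
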